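import Pool.Agent.helper43.KG.Spec

/-! # kg:TRI: trigonometric averages over signs -/

set_option autoImplicit false

namespace Pool.Agent.helper43.KG

open Finset MeasureTheory ProbabilityTheory

theorem TRI_step {ι : Type} [DecidableEq ι] (s : Finset ι) (j : ι) (hj : j ∉ s) (θ : ι → ℝ) (a : ℝ) (φ : ℝ → ℝ) :
    EE (insert j s) (fun _ => 0) (fun U => φ (a + ∑ i ∈ insert j s, θ i * sg U i)) =
      1 / 2 * EE s (fun _ => 0) (fun U => φ ((a + θ j) + ∑ i ∈ s, θ i * sg U i)) +
        1 / 2 * EE s (fun _ => 0) (fun U => φ ((a - θ j) + ∑ i ∈ s, θ i * sg U i)) := by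
  rw [EE_insert hj]
  rw [add_zero, sub_zero]
  congr 1
  · congr 1
    apply EE_congr
    intro U _
    rw [Finset.sum_insert hj, sg_insert_self]
    have e : ∑ i ∈ s, θ i * sg (insert j U) i = ∑ i ∈ s, θ i * sg U i := by
      apply Finset.sum_congr rfl
      intro i hi
      rw [sg_insert_ne U (ne_of_mem_of_not_mem hi hj)]
    rw [e]
    congr 1
    ring
  · congr 1
    apply EE_congr
    intro U hU
    rw [Finset.sum_insert hj, sg_notMem (fun h => hj (hU h))]
    congr 1
    ring

theorem t_tri : TRI := by
  intro ι _ s θ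
  induction s using Finset.induction_on with
  | empty =>
    intro a
    rw [EE_empty, EE_empty]
    simp
  | insert j s hj ih =>
    intro a
    rw [TRI_step s j hj θ a Real.cos, TRI_step s j hj θ a Real.sin, (ih _).1, (ih _).1, (ih _).2, (ih _).2,
      Finset.prod_insert hj, Real.cos_add, Real.cos_sub, Real.sin_add, Real.sin_sub]
    constructor <;> ring

end Pool.Agent.helper43.KG
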