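import Pool.Agent.helper43.KG.Spec

set_option autoImplicit false

open Filter Topology

namespace Pool.Agent.helper43.KG

theorem ASY_main (ω : ℝ) (hω : 0 < ω) (N : ℕ) (hN1 : 1 ≤ N) (hN : 4 * ω ≤ Real.sqrt N) :
    (ω - ω ^ 3 / 4 / N) * (1 + (-(ω ^ 2 / 2)) / N) ^ N ≤
      Real.sqrt N * (Real.sin (ω / Real.sqrt N) * Real.cos (ω / Real.sqrt N) ^ (N - 1)) ∧
    (1 + (-(2 * ω ^ 2)) / N) ^ N ≤ Real.cos (2 * ω / Real.sqrt N) ^ N := by
  have hs : 0 < Real.sqrt N := by linarith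
  have hNpos : (0 : ℝ) < N := by exact_mod_cast hN1
  have hsq : Real.sqrt N ^ 2 = N := Real.sq_sqrt hNpos.le
  set s := Real.sqrt N with hsdef
  have hN' : (N : ℝ) = s ^ 2 := hsq.symm
  have hθ0 : 0 < ω / s := div_pos hω hs
  have hθ1 : ω / s ≤ 1 / 4 := by
    rw [div_le_iff₀ hs]
    linarith
  have hb : 1 + (-(ω ^ 2 / 2)) / N = 1 - (ω / s) ^ 2 / 2 := by
    rw [hN']
    field_simp
    ring
  have hb2 : 1 + (-(2 * ω ^ 2)) / N = 1 - (2 * ω / s) ^ 2 / 2 := by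
    rw [hN']
    field_simp
    ring
  have h0 : 0 ≤ 1 - (ω / s) ^ 2 / 2 := by nlinarith
  have h02 : 0 ≤ 1 - (2 * ω / s) ^ 2 / 2 := by
    have h3 : 2 * ω / s = 2 * (ω / s) := by ring
    rw [h3]
    nlinarith
  have hc : 1 - (ω / s) ^ 2 / 2 ≤ Real.cos (ω / s) := Real.one_sub_sq_div_two_le_cos
  have hc2 : 1 - (2 * ω / s) ^ 2 / 2 ≤ Real.cos (2 * ω / s) := Real.one_sub_sq_div_two_le_cos
  have hsin : ω / s - (ω / s) ^ 3 / 4 ≤ Real.sin (ω / s) := by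
    have h8 := Real.sin_gt_sub_cube hθ0
    have h9 : 0 < (ω / s) ^ 3 := pow_pos hθ0 3
    linarith
  constructor
  · rw [hb]
    have hcp : (1 - (ω / s) ^ 2 / 2) ^ N ≤ Real.cos (ω / s) ^ (N - 1) := by
      refine (pow_le_pow_left₀ h0 hc N).trans ?_
      exact pow_le_pow_of_le_one (h0.trans hc) (Real.cos_le_one _) (Nat.sub_le _ _)
    have hsn : ω - ω ^ 3 / 4 / N ≤ s * Real.sin (ω / s) := by
      have h4 : s * (ω / s - (ω / s) ^ 3 / 4) ≤ s * Real.sin (ω / s) := mul_le_mul_of_nonneg_left hsin hs.le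
      have h5 : s * (ω / s - (ω / s) ^ 3 / 4) = ω - ω ^ 3 / 4 / N := by
        rw [hN']
        field_simp
      rw [h5] at h4
      exact h4
    have hsn0 : 0 ≤ s * Real.sin (ω / s) := by
      apply mul_nonneg hs.le
      refine le_trans ?_ hsin
      have h6 : (ω / s) ^ 3 / 4 ≤ ω / s := by
        have h7 : (ω / s) ^ 2 ≤ 1 := by nlinarith
        nlinarith
      linarith
    calc (ω - ω ^ 3 / 4 / N) * (1 - (ω / s) ^ 2 / 2) ^ N
        ≤ (s * Real.sin (ω / s)) * (1 - (ω / s) ^ 2 / 2) ^ N := mul_le_mul_of_nonneg_right hsn (pow_nonneg h0 N)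
      _ ≤ (s * Real.sin (ω / s)) * Real.cos (ω / s) ^ (N - 1) := mul_le_mul_of_nonneg_left hcp hsn0
      _ = s * (Real.sin (ω / s) * Real.cos (ω / s) ^ (N - 1)) := by ring
  · rw [hb2]
    exact pow_le_pow_left₀ h02 hc2 N

theorem t_asy : ASY := by
  intro ω ρ hω hρ
  have h1 : Tendsto (fun N : ℕ => (ω - ω ^ 3 / 4 / N) * (1 + (-(ω ^ 2 / 2)) / N) ^ N) atTop
      (𝓝 ((ω - 0) * Real.exp (-(ω ^ 2 / 2)))) :=
    (tendsto_const_nhds.sub (tendsto_const_div_atTop_nhds_zero_nat _)).mul (Real.tendsto_one_add_div_pow_exp _)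
  have h2 : Tendsto (fun N : ℕ => (1 + (-(2 * ω ^ 2)) / (N : ℝ)) ^ N) atTop
      (𝓝 (Real.exp (-(2 * ω ^ 2)))) := Real.tendsto_one_add_div_pow_exp _
  have e1 := h1.eventually (lt_mem_nhds (show (ω - 0) * Real.exp (-(ω ^ 2 / 2)) - ρ < (ω - 0) * Real.exp (-(ω ^ 2 / 2)) by linarith))
  have e2 := h2.eventually (lt_mem_nhds (show Real.exp (-(2 * ω ^ 2)) - ρ < Real.exp (-(2 * ω ^ 2)) by linarith))
  have e3 : ∀ᶠ N : ℕ in atTop, (4 * ω) ^ 2 ≤ (N : ℝ) := tendsto_natCast_atTop_atTop.eventually_ge_atTop _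
  have e4 : ∀ᶠ N : ℕ in atTop, 1 ≤ N := eventually_ge_atTop 1
  obtain ⟨N₀, hN₀⟩ := eventually_atTop.mp (e1.and (e2.and (e3.and e4)))
  refine ⟨N₀, fun N hN => ?_⟩
  obtain ⟨f1, f2, f3, f4⟩ := hN₀ N hN
  have h5 : 4 * ω ≤ Real.sqrt N := Real.le_sqrt_of_sq_le f3
  have h6 := ASY_main ω hω N f4 h5
  refine ⟨f4, h5, ?_, ?_⟩
  · rw [sub_zero] at f1
    linarith [h6.1]
  · linarith [h6.2]

end Pool.Agent.helper43.KG
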