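import Pool.Agent.helper43.KG.Spec

/-! # kg:CLT: comparison with the normal law -/

set_option autoImplicit false

namespace Pool.Agent.helper43.KG

open Finset MeasureTheory ProbabilityTheory

theorem CLT_abs (x p : ℝ) : (x ^ 2) ^ (p / 2) = |x| ^ p := by
  rw [← sq_abs, ← Real.rpow_natCast, ← Real.rpow_mul (abs_nonneg x)]
  congr 1
  push_cast
  ring

theorem CLT_upper (κ x p : ℝ) (hκ : 0 ≤ κ) (hp : 0 ≤ p) (hp2 : p ≤ 2) :
    (κ ^ 2 + x ^ 2) ^ (p / 2) ≤ |x| ^ p + κ ^ p := by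
  have h1 := Real.rpow_add_le_add_rpow (p := p / 2) (sq_nonneg κ) (sq_nonneg x) (by linarith) (by linarith)
  rw [CLT_abs, CLT_abs, abs_of_nonneg hκ] at h1
  linarith

theorem CLT_lower (κ x p : ℝ) (hp : 0 ≤ p) : |x| ^ p ≤ (κ ^ 2 + x ^ 2) ^ (p / 2) := by
  rw [← CLT_abs]
  apply Real.rpow_le_rpow (sq_nonneg x) _ (by linarith)
  have := sq_nonneg κ
  linarith

theorem CLT_growth (x p : ℝ) (hp : 0 ≤ p) (hp2 : p ≤ 2) : |x| ^ p ≤ 1 + x ^ 2 := by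
  rcases le_or_gt |x| 1 with h | h
  · have h1 := Real.rpow_le_one (abs_nonneg x) h hp
    have := sq_nonneg x
    linarith
  · have h1 := Real.rpow_le_rpow_of_exponent_le h.le hp2
    have h2 : |x| ^ (2 : ℝ) = x ^ 2 := by
      rw [← sq_abs x]
      exact Real.rpow_two _
    linarith

theorem t_clt (h : GIC) (ht : TAY) (hl : LIN) : CLT := by
  intro p ε K hp hp2 hε hK
  set κ₁ : ℝ := (ε / 2) ^ (1 / p) with hκ₁
  have hκ₁0 : 0 < κ₁ := Real.rpow_pos_of_pos (by linarith) _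
  have hκ₁p : κ₁ ^ p = ε / 2 := by
    rw [hκ₁, ← Real.rpow_mul (by linarith), one_div, inv_mul_cancel₀ (by linarith), Real.rpow_one]
  set X : ℝ := 6 * K ^ 3 * κ₁ ^ (p - 3) / ε with hX
  have hX0 : 0 < X := by
    have : 0 < κ₁ ^ (p - 3) := Real.rpow_pos_of_pos hκ₁0 _
    positivity
  refine ⟨⌈X ^ 2⌉₊ + 1, fun d hd ι _ s f w a hs hf hw => ?_⟩
  have hd1 : (1 : ℝ) ≤ d := by
    have : 1 ≤ d := by omega
    exact_mod_cast this
  have hd0 : (0 : ℝ) < d := by linarith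
  have hdX : X ^ 2 ≤ d := by
    have h1 : ((⌈X ^ 2⌉₊ : ℕ) : ℝ) ≤ d := by
      have : ⌈X ^ 2⌉₊ ≤ d := by omega
      exact_mod_cast this
    exact (Nat.le_ceil _).trans h1
  have hsq : X ≤ Real.sqrt d := Real.le_sqrt_of_sq_le hdX
  have hsd0 : 0 < Real.sqrt d := Real.sqrt_pos.2 hd0
  set κ : ℝ := κ₁ * Real.sqrt d with hκ
  have hκ0 : 0 < κ := mul_pos hκ₁0 hsd0
  have hκp : κ ^ p = ε / 2 * (d : ℝ) ^ (p / 2) := by
    rw [hκ, Real.mul_rpow hκ₁0.le hsd0.le, hκ₁p, Real.sqrt_eq_rpow, ← Real.rpow_mul hd0.le]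
    congr 2
    ring
  have hsm := ht p κ hp hp2.le hκ0
  have hlin := hl (κ ^ (p - 3)) ι s f w (fun x => (κ ^ 2 + x ^ 2) ^ (p / 2)) a hsm hf
  set σ : ℝ := Real.sqrt (∑ j ∈ s, w j ^ 2 * (1 - f j ^ 2)) with hσ
  obtain ⟨hcont, ⟨C, hC⟩, -⟩ := hsm
  have hI1 := h (fun x => (κ ^ 2 + x ^ 2) ^ (p / 2)) C a σ hcont hC
  have hI2 := h (fun x => |x| ^ p) 1 a σ (continuous_abs.rpow_const (fun x => Or.inr (by linarith))) (fun x => by
    rw [abs_of_nonneg (Real.rpow_nonneg (abs_nonneg x) p), one_mul]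
    exact CLT_growth x p (by linarith) hp2.le)
  have hGH : GH p a σ ≤ ∫ x, (κ ^ 2 + (a + σ * x) ^ 2) ^ (p / 2) ∂(gaussianReal 0 1) := by
    unfold GH
    exact integral_mono hI2 hI1 (fun x => CLT_lower κ _ p (by linarith))
  have hEE : EE s f (fun U => (κ ^ 2 + (a + ∑ j ∈ s, w j * (sg U j - f j)) ^ 2) ^ (p / 2)) ≤
      EE s f (fun U => |a + ∑ j ∈ s, w j * (sg U j - f j)| ^ p) + κ ^ p := by
    have h1 := EE_mono (F := fun U => (κ ^ 2 + (a + ∑ j ∈ s, w j * (sg U j - f j)) ^ 2) ^ (p / 2))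
      (F' := fun U => |a + ∑ j ∈ s, w j * (sg U j - f j)| ^ p + κ ^ p) hf
      (fun U _ => CLT_upper κ _ p hκ0.le (by linarith) hp2.le)
    rw [EE_add, EE_const] at h1
    exact h1
  have hsum : ∑ j ∈ s, |w j| ^ 3 ≤ d * K ^ 3 := by
    calc ∑ j ∈ s, |w j| ^ 3 ≤ ∑ j ∈ s, K ^ 3 :=
          Finset.sum_le_sum fun j hj => pow_le_pow_left₀ (abs_nonneg _) (hw j hj) 3
      _ = s.card * K ^ 3 := by rw [Finset.sum_const, nsmul_eq_mul]
      _ ≤ d * K ^ 3 := by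
          apply mul_le_mul_of_nonneg_right _ (by positivity)
          exact_mod_cast hs
  have hκ3 : 0 < κ ^ (p - 3) := Real.rpow_pos_of_pos hκ0 _
  have hfin : 3 * κ ^ (p - 3) * (d * K ^ 3) ≤ ε / 2 * (d : ℝ) ^ (p / 2) := by
    have e1 : κ ^ (p - 3) * d = κ₁ ^ (p - 3) * ((d : ℝ) ^ (p / 2) / Real.sqrt d) := by
      rw [hκ, Real.mul_rpow hκ₁0.le hsd0.le, mul_assoc]
      congr 1
      rw [Real.sqrt_eq_rpow, ← Real.rpow_mul hd0.le, ← Real.rpow_sub hd0]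
      nth_rewrite 2 [← Real.rpow_one (d : ℝ)]
      rw [← Real.rpow_add hd0]
      congr 1
      ring
    have e2 : 3 * κ ^ (p - 3) * (d * K ^ 3) = 3 * K ^ 3 * (κ ^ (p - 3) * d) := by ring
    rw [e2, e1]
    have h2 : 3 * K ^ 3 * κ₁ ^ (p - 3) ≤ ε / 2 * Real.sqrt d := by
      have h3 : X * ε = 6 * K ^ 3 * κ₁ ^ (p - 3) := by
        rw [hX]
        field_simp
      have h4 := mul_le_mul_of_nonneg_right hsq hε.le
      linarith
    have hdp : 0 < (d : ℝ) ^ (p / 2) := Real.rpow_pos_of_pos hd0 _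
    calc 3 * K ^ 3 * (κ₁ ^ (p - 3) * ((d : ℝ) ^ (p / 2) / Real.sqrt d)) =
        (3 * K ^ 3 * κ₁ ^ (p - 3)) * ((d : ℝ) ^ (p / 2) / Real.sqrt d) := by ring
      _ ≤ (ε / 2 * Real.sqrt d) * ((d : ℝ) ^ (p / 2) / Real.sqrt d) :=
          mul_le_mul_of_nonneg_right h2 (by positivity)
      _ = ε / 2 * (d : ℝ) ^ (p / 2) := by
          field_simp
  have h5 := (abs_le.1 hlin).1
  have h6 : 3 * κ ^ (p - 3) * ∑ j ∈ s, |w j| ^ 3 ≤ 3 * κ ^ (p - 3) * (d * K ^ 3) :=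
    mul_le_mul_of_nonneg_left hsum (by positivity)
  linarith

end Pool.Agent.helper43.KG
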